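import Pool.Agent.Run7.h325.Bond
import Pool.Agent.Run7.h325.Descent

set_option autoImplicit false

/-!
# Contractible bonds when the degree-two twins have a common neighbour

Let `G` be a 2-connected graph of girth at least four without a `K_5` minor, and suppose that some
vertex `p` is adjacent to every vertex of degree two which has the same neighbourhood as another
vertex (for instance, no two vertices of degree two have the same neighbourhood, or the minimum
degree is at least three).  Then `G` has a contractible bond; it can be chosen as the set of edges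
leaving a single vertex or leaving a pair of adjacent vertices.
-/

namespace Pool.Agent.Results.MP_728309_co.DegreeTwoTwins

open Run7.h325

theorem result :
    ∀ (V : Type) [Fintype V] (G : SimpleGraph V),
      3 ≤ Fintype.card V → G.Connected →
      (∀ v : V, (G.induce {w : V | w ≠ v}).Connected) →
      G.CliqueFree 3 →
      (¬ ∃ f : Fin 5 → Set V, (∀ i, (G.induce (f i)).Connected) ∧
          (∀ i j, i ≠ j → Disjoint (f i) (f j)) ∧
          (∀ i j, i ≠ j → ∃ u ∈ f i, ∃ v ∈ f j, G.Adj u v)) →
      (∃ p : V, ∀ v w : V, v ≠ w → G.neighborSet v = G.neighborSet w →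
          (G.neighborSet v).ncard = 2 → G.Adj p v) →
      (∃ x : V, ContractibleBond G (cut G {x})) ∨
        (∃ x y : V, G.Adj x y ∧ ContractibleBond G (cut G {x, y})) := by
  intro V _ G hcard hconn hc2 htf hk5 ⟨p, hp⟩
  classical
  have hB : Base G := base_of hconn hc2 htf
  have h3 := three_of_card hcard
  by_contra hcon
  push Not at hcon
  obtain ⟨hs, he⟩ := hcon
  have hbad : Bad G := ⟨hB, fun x hx => hs x (star_bond hB h3 hx)⟩
  have hbad2 : Bad2 G := ⟨hbad, fun x y hxy h1 h2 h2' => he x y hxy (edge_bond hB h3 hxy h1 h2 h2'),
    hk5⟩
  refine hbad2.false_of_common p ?_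
  rintro v ⟨W, hW⟩ hT
  obtain ⟨v', hv'v, hv'W, hvv'⟩ := hW.other
  have htw := hW.twin v' hv'W hvv'
  refine hp v v' hv'v.symm ?_ ?_
  · ext z
    exact (htw z).symm
  · obtain ⟨a, b, hab, ha, hb⟩ := hbad.two_nbrs v
    have : G.neighborSet v = {a, b} := by
      ext z
      constructor
      · intro hz
        by_contra hc
        have hza : z ≠ a := fun h => hc (Or.inl h)
        have hzb : z ≠ b := fun h => hc (Or.inr h)
        exact hT ⟨a, b, z, hab, hza.symm, hzb.symm, ha, hb, hz⟩
      · rintro (hz | hz)
        · rw [hz]
          exact ha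
        · have hz' : z = b := hz
          rw [hz']
          exact hb
    rw [this, Set.ncard_pair hab]

end Pool.Agent.Results.MP_728309_co.DegreeTwoTwins
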