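import Pool.Agent.Run7.h325.Bond

set_option autoImplicit false

/-!
# Twin-free graphs of girth at least four have contractible stars

Let `G` be a 2-connected triangle-free graph in which distinct vertices have distinct
neighbourhoods.  For every vertex `r` there is a vertex `x`, different from `r` and not adjacent to
`r`, such that contracting the edges at `x` leaves a 2-connected graph.  No minor is excluded.
-/

namespace Pool.Agent.Results.MP_728309_co.TwinFree

open Run7.h325

theorem result :
    ∀ (V : Type) [Fintype V] (G : SimpleGraph V),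
      3 ≤ Fintype.card V → G.Connected →
      (∀ v : V, (G.induce {w : V | w ≠ v}).Connected) →
      G.CliqueFree 3 →
      (∀ v w : V, G.neighborSet v = G.neighborSet w → v = w) →
      ∀ r : V, ∃ x : V, x ≠ r ∧ ¬ G.Adj r x ∧ ContractibleBond G (cut G {x}) := by
  intro V _ G hcard hconn hc2 htf htw r
  classical
  have hB : Base G := base_of hconn hc2 htf
  have h3 := three_of_card hcard
  obtain ⟨u0, hu0⟩ := hB.exists_far h3 r
  obtain ⟨x, hx, hx'⟩ := hB.exists_star_or_heavy hu0
  refine ⟨x, hx.1.symm, fun hc => hx.2 hc.symm, ?_⟩
  rcases hx' with hx' | ⟨W, hW⟩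
  · exact star_bond hB h3 hx'
  · exfalso
    obtain ⟨v', hv'v, hv'W, hvv'⟩ := hW.other
    apply hv'v
    apply htw
    ext z
    exact hW.twin v' hv'W hvv' z

end Pool.Agent.Results.MP_728309_co.TwinFree
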